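import Pool.Agent.Helper82.Circ.Unfold
import Pool.Agent.Helper82.Circ.Sdr
set_option autoImplicit false

/-!
The space unfolded along a right-angled Coxeter group is contractible.
-/

open Topology Set Function

namespace Pool.Agent.Helper35.CircB
open Pool.Agent.Helper82.Circ

variable {S : Type} {comm : S → S → Prop} {Y : Type} [TopologicalSpace Y]

/-- the homotopy: `G w` are the retractions and `sel w y` the chosen mirrors -/
noncomputable def HH (m : Mir S comm Y) (G : Racg comm → ℝ × Y → Y) (sel : Racg comm → Y → S) :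
    ℕ → Racg comm → Y → ℝ → Unf m
  | 0, w, y, _ => Unf.mk m w y
  | k + 1, w, y, t =>
    if t ≤ (1 / 2) ^ k then Unf.mk m w (G w (cl (2 ^ (k + 1) * t - 1), y))
    else HH m G sel k (w * gen comm (sel w y)) (G w (1, y)) t

/-- the properties of the retractions and of the choices -/
structure Good (m : Mir S comm Y) (G : Racg comm → ℝ × Y → Y) (sel : Racg comm → Y → S) :
    Prop where
  symm : ∀ s t, comm s t → comm t s
  cont : ∀ w, w ≠ 1 → Continuous (G w)
  zero : ∀ w, w ≠ 1 → ∀ y, G w (0, y) = y
  fix : ∀ w, w ≠ 1 → ∀ y, (∃ s ∈ desc w, s ∈ m.mir y) → ∀ t, G w (t, y) = y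
  sel_desc : ∀ w, w ≠ 1 → ∀ y, sel w y ∈ desc w
  sel_mir : ∀ w, w ≠ 1 → ∀ y, sel w y ∈ m.mir (G w (1, y))

lemma mk_mul_gen {m : Mir S comm Y} {w : Racg comm} {s : S} {y : Y} (h : s ∈ m.mir y) :
    Unf.mk m (w * gen comm s) y = Unf.mk m w y := by
  rw [Unf.mk_eq_mk]
  refine ⟨rfl, ?_⟩
  have h1 : (w * gen comm s)⁻¹ * w = gen comm s := by
    rw [mul_inv_rev, gen_inv, mul_assoc, inv_mul_cancel, mul_one]
  rw [h1]
  exact Subgroup.subset_closure ⟨s, h, rfl⟩

lemma ne_one_of_desc {w : Racg comm} {s : S} (h : s ∈ desc w) : w ≠ 1 := by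
  rintro rfl
  have h1 := inv'_mul_gen_of_mem h
  rw [len_one] at h1
  omega

lemma ne_one_of_len {w : Racg comm} {k : ℕ} (h : len w = k + 1) : w ≠ 1 := by
  rintro rfl
  rw [len_one] at h
  omega

section

variable {m : Mir S comm Y} {G : Racg comm → ℝ × Y → Y} {sel : Racg comm → Y → S}

/-- (1) the homotopy is stationary for small times -/
lemma HH_small (hg : Good m G sel) (n : ℕ) (w : Racg comm) (hw : len w = n) (y : Y) (t : ℝ)
    (ht : t ≤ (1 / 2) ^ n) : HH m G sel n w y t = Unf.mk m w y := by
  cases n with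
  | zero => rfl
  | succ k =>
    have h1 : ((1 : ℝ) / 2) ^ (k + 1) ≤ (1 / 2) ^ k :=
      pow_le_pow_of_le_one (by norm_num) (by norm_num) (Nat.le_succ k)
    have h2 : (2 : ℝ) ^ (k + 1) * t - 1 ≤ 0 := by
      have h3 : (2 : ℝ) ^ (k + 1) * t ≤ 2 ^ (k + 1) * (1 / 2) ^ (k + 1) :=
        mul_le_mul_of_nonneg_left ht (by positivity)
      rw [← mul_pow] at h3
      norm_num at h3
      linarith
    have hw1 := ne_one_of_len hw
    simp only [HH]
    rw [if_pos (ht.trans h1), cl_of_le h2, hg.zero w hw1]

/-- (2) compatibility, special case -/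
lemma HH_gen (hg : Good m G sel) : ∀ (k : ℕ) (w : Racg comm), len w = k + 1 → ∀ (y : Y) (s : S),
    s ∈ desc w → s ∈ m.mir y → ∀ t, HH m G sel (k + 1) w y t = HH m G sel k (w * gen comm s) y t := by
  intro k
  induction k with
  | zero =>
    intro w hw y s hs hsy t
    have hw1 := ne_one_of_len hw
    have hfix := hg.fix w hw1 y ⟨s, hs, hsy⟩
    simp only [HH, hfix]
    rw [mk_mul_gen hsy]
    have h1 := hg.sel_mir w hw1 y
    rw [hfix] at h1
    rw [mk_mul_gen h1, ite_self]
  | succ j ih =>
    intro w hw y s hs hsy t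
    have hw1 := ne_one_of_len hw
    have hfix := hg.fix w hw1 y ⟨s, hs, hsy⟩
    have hlen : len (w * gen comm s) = j + 1 := by
      have := inv'_mul_gen_of_mem hs
      omega
    by_cases ht : t ≤ (1 / 2) ^ (j + 1)
    · rw [HH_small hg (j + 1) (w * gen comm s) hlen y t ht, mk_mul_gen hsy]
      rw [HH, if_pos ht, hfix]
    · rw [HH, if_neg ht, hfix]
      have h1 := hg.sel_mir w hw1 y
      rw [hfix] at h1
      have h2 := hg.sel_desc w hw1 y
      set s' := sel w y with hs'
      by_cases hss : s = s'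
      · rw [← hss]
      · have hc : comm s s' := desc_comm hg.symm hs h2 hss
        have hc' : comm s' s := hg.symm _ _ hc
        have h3 : s ∈ desc (w * gen comm s') := desc_mul_gen hc' (Ne.symm hss) hs
        have h4 : s' ∈ desc (w * gen comm s) := desc_mul_gen hc hss h2
        have hlen' : len (w * gen comm s') = j + 1 := by
          have := inv'_mul_gen_of_mem h2
          omega
        rw [ih (w * gen comm s') hlen' y s h3 hsy t, ih (w * gen comm s) hlen y s' h4 h1 t,
          mul_assoc, mul_assoc, gen_comm hc]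

/-- (2) compatibility -/
lemma HH_compat (hg : Good m G sel) (w : Racg comm) (y : Y) (g : Racg comm)
    (h : g ∈ Subgroup.closure (gen comm '' m.mir y)) (t : ℝ) :
    HH m G sel (len (w * g)) (w * g) y t = HH m G sel (len w) w y t := by
  have key : ∀ (v : Racg comm) (s : S), s ∈ m.mir y →
      HH m G sel (len (v * gen comm s)) (v * gen comm s) y t = HH m G sel (len v) v y t := by
    intro v s hs
    by_cases hd : s ∈ desc v
    · have h1 := inv'_mul_gen_of_mem hd
      rw [← h1, HH_gen hg (len (v * gen comm s)) v h1.symm y s hd hs t]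
    · have h1 : len (v * gen comm s) = len v + 1 := inv'_mul_gen_of_notMem hd
      have h2 : s ∈ desc (v * gen comm s) := gen_mem_inv'_mul_gen.2 hd
      rw [h1, HH_gen hg (len v) (v * gen comm s) h1 y s h2 hs t, mul_gen_cancel]
  induction h using Subgroup.closure_induction_right generalizing w with
  | one => rw [mul_one]
  | mul_right x hx y' hy' ih =>
    obtain ⟨s, hs, rfl⟩ := hy'
    rw [← mul_assoc, key _ _ hs, ih]
  | mul_inv_cancel x hx y' hy' ih =>
    obtain ⟨s, hs, rfl⟩ := hy'
    rw [gen_inv, ← mul_assoc, key _ _ hs, ih]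

lemma isClosed_mir (m : Mir S comm Y) (s : S) : IsClosed {y | s ∈ m.mir y} := by
  rw [← isOpen_compl_iff, isOpen_iff_mem_nhds]
  intro y hy
  filter_upwards [m.nhds y] with y' hy' h
  exact hy (hy' h)

/-- (3) continuity -/
lemma HH_continuous (hg : Good m G sel) : ∀ (n : ℕ) (w : Racg comm), len w = n →
    Continuous (fun p : Y × ℝ => HH m G sel n w p.1 p.2) := by
  intro n
  induction n with
  | zero =>
    intro w _
    exact (Unf.continuous_mk_right w).comp continuous_fst
  | succ k ih =>
    intro w hw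
    have hw1 := ne_one_of_len hw
    have hGc := hg.cont w hw1
    have hG1 : Continuous (fun y : Y => G w (1, y)) := hGc.comp (Continuous.prodMk_right 1)
    -- the closed cover
    let C : Option (desc w) → Set (Y × ℝ) := fun o => match o with
      | none => {p | p.2 ≤ (1 / 2) ^ k}
      | some s => {p | (1 / 2) ^ k ≤ p.2} ∩ {p | (s : S) ∈ m.mir (G w (1, p.1))}
    have : Finite (desc w) := (desc_finite w).to_subtype
    refine (locallyFinite_of_finite C).continuous ?_ ?_ ?_
    · rw [Set.eq_univ_iff_forall]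
      intro p
      rw [Set.mem_iUnion]
      by_cases hp : p.2 ≤ (1 / 2) ^ k
      · exact ⟨none, hp⟩
      · exact ⟨some ⟨sel w p.1, hg.sel_desc w hw1 p.1⟩, (not_le.1 hp).le, hg.sel_mir w hw1 p.1⟩
    · intro o
      cases o with
      | none => exact isClosed_le continuous_snd continuous_const
      | some s =>
        refine (isClosed_le continuous_const continuous_snd).inter ?_
        exact (isClosed_mir m s).preimage (hG1.comp continuous_fst)
    · intro o
      cases o with
      | none =>
        have h1 : Continuous (fun p : Y × ℝ => Unf.mk m w (G w (cl (2 ^ (k + 1) * p.2 - 1), p.1))) :=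
          (Unf.continuous_mk_right w).comp (hGc.comp
            ((continuous_cl.comp (by fun_prop)).prodMk continuous_fst))
        refine h1.continuousOn.congr ?_
        intro p hp
        have hp' : p.2 ≤ (1 / 2) ^ k := hp
        simp only [HH]
        rw [if_pos hp']
      | some s =>
        have hs : (s : S) ∈ desc w := s.2
        have hlen : len (w * gen comm (s : S)) = k := by
          have := inv'_mul_gen_of_mem hs
          omega
        have h1 : Continuous (fun p : Y × ℝ =>
            HH m G sel k (w * gen comm (s : S)) (G w (1, p.1)) p.2) :=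
          (ih (w * gen comm (s : S)) hlen).comp
            ((hG1.comp continuous_fst).prodMk continuous_snd)
        refine h1.continuousOn.congr ?_
        rintro ⟨y, t⟩ ⟨hp1, hp2⟩
        have hp1' : (1 / 2) ^ k ≤ t := hp1
        have hp2' : (s : S) ∈ m.mir (G w (1, y)) := hp2
        simp only [HH]
        by_cases ht : t ≤ (1 / 2) ^ k
        · have ht' : t = (1 / 2) ^ k := le_antisymm ht hp1'
          have h2 : (2 : ℝ) ^ (k + 1) * t - 1 = 1 := by
            rw [ht', pow_succ, mul_right_comm, ← mul_pow]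
            norm_num
          rw [if_pos ht, h2, cl_of_ge le_rfl, HH_small hg k _ hlen _ _ ht, mk_mul_gen hp2']
        · rw [if_neg ht]
          set s' := sel w y with hs'
          have h3 : s' ∈ m.mir (G w (1, y)) := hg.sel_mir w hw1 y
          have h4 : s' ∈ desc w := hg.sel_desc w hw1 y
          have hlen' : len (w * gen comm s') = k := by
            have := inv'_mul_gen_of_mem h4
            omega
          have h5 : w * gen comm s' = w * gen comm (s : S) * (gen comm (s : S) * gen comm s') := by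
            rw [mul_assoc w, ← mul_assoc (gen comm (s : S)), gen_mul_self, one_mul]
          have h6 := HH_compat hg (w * gen comm (s : S)) (G w (1, y))
            (gen comm (s : S) * gen comm s') (Subgroup.mul_mem _
              (Subgroup.subset_closure ⟨_, hp2', rfl⟩) (Subgroup.subset_closure ⟨_, h3, rfl⟩)) t
          rw [← h5, hlen, hlen'] at h6
          exact h6

/-- (4) the end of the homotopy -/
lemma HH_two (hg : Good m G sel) : ∀ (n : ℕ) (w : Racg comm), len w = n → ∀ y,
    ∃ y', HH m G sel n w y 2 = Unf.mk m 1 y' := by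
  intro n
  induction n with
  | zero =>
    intro w hw y
    exact ⟨y, by rw [len_eq_zero hw]; rfl⟩
  | succ k ih =>
    intro w hw y
    have hw1 := ne_one_of_len hw
    have h1 : ¬ (2 : ℝ) ≤ (1 / 2) ^ k := by
      have : ((1 : ℝ) / 2) ^ k ≤ 1 := pow_le_one₀ (by norm_num) (by norm_num)
      linarith
    simp only [HH]
    rw [if_neg h1]
    refine ih _ ?_ _
    have := inv'_mul_gen_of_mem (hg.sel_desc w hw1 y)
    omega

end

theorem contractible_unf {S : Type} {comm : S → S → Prop} {Y : Type} [TopologicalSpace Y]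
    (hsymm : ∀ s t, comm s t → comm t s) (m : Mir S comm Y) [ContractibleSpace Y]
    (hsdr : ∀ T : Finset S, T.Nonempty → (∀ s ∈ T, ∀ s' ∈ T, s ≠ s' → comm s s') →
      ∃ G : ℝ × Y → Y, Continuous G ∧ (∀ y, G (0, y) = y) ∧ (∀ y, ∃ s ∈ T, s ∈ m.mir (G (1, y))) ∧
        ∀ y, (∃ s ∈ T, s ∈ m.mir y) → ∀ t, G (t, y) = y) : ContractibleSpace (Unf m) := by
  classical
  let i : C(Y, Unf m) := ⟨Unf.mk m 1, Unf.continuous_mk_right 1⟩
  by_cases hS : Nonempty S
  swap
  · rw [contractible_iff_id_nullhomotopic]
    let r : C(Unf m, Y) := ⟨Unf.snd, Unf.continuous_snd⟩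
    have h1 : (i.comp r).Nullhomotopic := by
      have := ((id_nullhomotopic Y).comp_right i).comp_left r
      simpa using this
    have h2 : i.comp r = ContinuousMap.id (Unf m) := by
      ext u
      obtain ⟨w, y, rfl⟩ := Unf.exists_rep u
      have hw : w = 1 := by
        by_contra hw
        obtain ⟨s, -⟩ := exists_desc hw
        exact hS ⟨s⟩
      rw [hw]
      rfl
    rw [← h2]
    exact h1
  obtain ⟨s₀⟩ := hS
  -- the choices
  have hex : ∀ w : Racg comm, ∃ (G : ℝ × Y → Y) (sel : Y → S), w ≠ 1 → Continuous G ∧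
      (∀ y, G (0, y) = y) ∧ (∀ y, (∃ s ∈ desc w, s ∈ m.mir y) → ∀ t, G (t, y) = y) ∧
      (∀ y, sel y ∈ desc w) ∧ (∀ y, sel y ∈ m.mir (G (1, y))) := by
    intro w
    by_cases hw : w = 1
    · exact ⟨fun p => p.2, fun _ => s₀, fun h => absurd hw h⟩
    · obtain ⟨G, h1, h2, h3, h4⟩ := hsdr (desc_finite w).toFinset
        (by
          obtain ⟨s, hs⟩ := exists_desc hw
          exact ⟨s, (desc_finite w).mem_toFinset.2 hs⟩)
        (by
          intro s hs s' hs' hne
          exact desc_comm hsymm ((desc_finite w).mem_toFinset.1 hs)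
            ((desc_finite w).mem_toFinset.1 hs') hne)
      choose sel hsel1 hsel2 using h3
      refine ⟨G, sel, fun _ => ⟨h1, h2, ?_, ?_, hsel2⟩⟩
      · rintro y ⟨s, hs, hsy⟩ t
        exact h4 y ⟨s, (desc_finite w).mem_toFinset.2 hs, hsy⟩ t
      · intro y
        exact (desc_finite w).mem_toFinset.1 (hsel1 y)
  choose G sel hGs using hex
  have hg : Good m G sel := ⟨hsymm, fun w hw => (hGs w hw).1, fun w hw => (hGs w hw).2.1,
    fun w hw => (hGs w hw).2.2.1, fun w hw => (hGs w hw).2.2.2.1, fun w hw => (hGs w hw).2.2.2.2⟩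
  let K : ℝ → Unf m → Unf m := fun t => Unf.lift (fun w y => HH m G sel (len w) w y t) (by
    intro w w' y h
    have h1 := HH_compat hg w y (w⁻¹ * w') h t
    rw [mul_inv_cancel_left] at h1
    exact h1.symm)
  have hKmk : ∀ t w y, K t (Unf.mk m w y) = HH m G sel (len w) w y t := fun _ _ _ => rfl
  have hK : Continuous (fun p : Unf m × ℝ => K p.2 p.1) := by
    refine Unf.isQuotientMap_mk.continuous_lift_prod_left ?_
    have h1 : Continuous (fun q : Racg comm × (Y × ℝ) =>
        HH m G sel (len q.1) q.1 q.2.1 q.2.2) :=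
      continuous_prod_of_discrete_left.2 fun w => HH_continuous hg (len w) w rfl
    exact h1.comp (f := fun p : (Racg comm × Y) × ℝ => (p.1.1, (p.1.2, p.2))) (by fun_prop)
  have hK0 : ∀ u, K 0 u = u := by
    intro u
    obtain ⟨w, y, rfl⟩ := Unf.exists_rep u
    rw [hKmk]
    exact HH_small hg _ w rfl y 0 (by positivity)
  have hK2 : ∀ u, K 2 u = Unf.mk m 1 (Unf.snd (K 2 u)) := by
    intro u
    obtain ⟨w, y, rfl⟩ := Unf.exists_rep u
    rw [hKmk]
    obtain ⟨y', hy'⟩ := HH_two hg _ w rfl y
    rw [hy', Unf.snd_mk]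
  rw [contractible_iff_id_nullhomotopic]
  let r : C(Unf m, Y) := ⟨fun u => Unf.snd (K 2 u), Unf.continuous_snd.comp
    (hK.comp (Continuous.prodMk_left 2))⟩
  have h1 : (i.comp r).Nullhomotopic := by
    have := ((id_nullhomotopic Y).comp_right i).comp_left r
    simpa using this
  obtain ⟨x₀, hx₀⟩ := h1
  refine ⟨x₀, ContinuousMap.Homotopic.trans ?_ hx₀⟩
  refine ⟨⟨⟨fun p => K (2 * (p.1 : ℝ)) p.2, ?_⟩, ?_, ?_⟩⟩
  · exact hK.comp (f := fun p : unitInterval × Unf m => (p.2, 2 * (p.1 : ℝ))) (by fun_prop)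
  · intro u
    simp [hK0]
  · intro u
    show K (2 * ((1 : unitInterval) : ℝ)) u = Unf.mk m 1 (Unf.snd (K 2 u))
    rw [← hK2]
    norm_num

end Pool.Agent.Helper35.CircB
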